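import Pool.Agent.H7.LP.Targets3

/-!
Row RCT of the board lpq: measurable recursion.
-/

set_option autoImplicit false

namespace Pool.Agent.H49.LQ3

open Pool.Agent.H7.LQ

open Classical in
/-- one step: the first `n` with `x` in `P n` -/
private lemma rct_step {B A : Type} [MeasurableSpace B] [MeasurableSpace A] (a₀ : A)
    (t : ℕ → B → A) (P : ℕ → Set B) (ht : ∀ n, Measurable (t n))
    (hP : ∀ n, MeasurableSet (P n)) :
    ∃ g : B → A, Measurable g ∧ ∀ x, (∃ n, x ∈ P n) → ∃ n, x ∈ P n ∧ g x = t n x := by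
  set f : ℕ → B → A := fun k => match k with
    | 0 => fun _ => a₀
    | n + 1 => t n with hf
  set p : ℕ → B → Prop := fun k => match k with
    | 0 => fun x => ∀ n, x ∉ P n
    | n + 1 => fun x => x ∈ P n with hp
  have hfm : ∀ n, Measurable (f n) := by
    intro n
    cases n with
    | zero => exact measurable_const
    | succ n => exact ht n
  have hpm : ∀ n, MeasurableSet {x | p n x} := by
    intro n
    cases n with
    | zero =>
      have : {x | p 0 x} = ⋂ n, (P n)ᶜ := by
        ext x
        simp [hp]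
      rw [this]
      exact MeasurableSet.iInter fun n => (hP n).compl
    | succ n => exact hP n
  have hex : ∀ x, ∃ n, p n x := by
    intro x
    by_cases h : ∃ n, x ∈ P n
    · obtain ⟨n, hn⟩ := h
      exact ⟨n + 1, hn⟩
    · exact ⟨0, fun n hn => h ⟨n, hn⟩⟩
  refine ⟨fun x => f (Nat.find (hex x)) x, Measurable.find hfm hpm hex, ?_⟩
  rintro x ⟨n, hn⟩
  have hs := Nat.find_spec (hex x)
  rcases hk : Nat.find (hex x) with _ | k
  · rw [hk] at hs
    exact absurd hn (hs n)
  · rw [hk] at hs
    refine ⟨k, hs, ?_⟩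
    show f (Nat.find (hex x)) x = t k x
    rw [hk]

theorem pf_RCT : T_RCT := by
  intro Ω A _ _ a₀ t P ht hP
  have h1 : ∀ s, ∃ g : Ω × A → A, Measurable g ∧
      ∀ x, (∃ n, x ∈ P s n) → ∃ n, x ∈ P s n ∧ g x = t s n x := fun s =>
    rct_step a₀ (t s) (P s) (ht s) (hP s)
  choose g hg hg2 using h1
  refine ⟨fun ω => fun s => Nat.rec a₀ (fun s a => g s (ω, a)) s, ?_, fun ω => rfl, ?_⟩
  · intro s
    induction s with
    | zero => exact measurable_const
    | succ s ih => exact (hg s).comp (measurable_id.prodMk ih)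
  · intro ω s h
    exact hg2 s _ h

end Pool.Agent.H49.LQ3
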